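import Mathlib
import Pool.Agent.W136.Fin

/-!
# The logarithmic Sarnak conjecture is equivalent to its case of zero entropy Toeplitz sequences
over one prescribed odometer with almost full periodic part, and to its case of minimal
homeomorphisms
-/

set_option autoImplicit false

open Filter Topology

namespace Pool.Agent.Results.MP_3e612f_nt.MinimalToeplitz

/-- `(X,T)` is logarithmically Möbius disjoint. -/
def LogMobiusDisjoint (X : Type) [MetricSpace X] [CompactSpace X] (T : X → X) : Prop :=
  ∀ f : X → ℂ, Continuous f → ∀ x : X,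
    Tendsto (fun N : ℕ => (1 / (Real.log (N : ℝ) : ℂ)) *
      ∑ n ∈ Finset.Icc 1 N, f (T^[n] x) * ((ArithmeticFunction.moebius n : ℤ) : ℂ) / (n : ℂ))
      atTop (𝓝 0)

/-- The logarithmically averaged Sarnak conjecture (the same statement as the frozen one). -/
def LogSarnak : Prop :=
  ∀ (X : Type) [MetricSpace X] [CompactSpace X] (T : X → X), Continuous T →
    Dynamics.coverEntropy T Set.univ = 0 → LogMobiusDisjoint X T

/-- The logarithmically averaged Sarnak conjecture for minimal homeomorphisms of totally
disconnected compact metric spaces. -/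
def LogSarnakMinimal : Prop :=
  ∀ (X : Type) [MetricSpace X] [CompactSpace X] [TotallyDisconnectedSpace X] (T : X ≃ₜ X),
    Dynamics.coverEntropy T Set.univ = 0 →
    (∀ y : X, Dense (Set.range fun n : ℕ => T^[n] y)) → LogMobiusDisjoint X T

/-- The number of words of length `n` occurring in `z` is `exp (o(n))`. -/
def ZeroEntropy (z : ℕ → Bool) : Prop :=
  Tendsto (fun n : ℕ =>
    Real.log ({u : Fin n → Bool | ∃ s : ℕ, ∀ i : Fin n, u i = z (s + i)}.ncard : ℝ) / (n : ℝ))
    atTop (𝓝 0)

/-- `z` is a Toeplitz sequence with period structure inside `Q`: every position lies in an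
arithmetic progression `n + (Q k) ℕ` on which `z` is constant. -/
def IsToeplitz (Q : ℕ → ℕ) (z : ℕ → Bool) : Prop :=
  ∀ n, ∃ k, ∀ j, z (n + j * Q k) = z n

/-- For some `k`, at least `(1 - ε) Q k` of the residue classes modulo `Q k` have the property that
`z` is constant on them. -/
def LargePeriodicPart (Q : ℕ → ℕ) (ε : ℝ) (z : ℕ → Bool) : Prop :=
  ∃ k, (1 - ε) * (Q k : ℝ) ≤ ({r : ℕ | r < Q k ∧ ∀ j, z (r + j * Q k) = z r}.ncard : ℝ)

/-- The logarithmic averages of the Möbius function over the support of `z` tend to `0` for every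
zero entropy Toeplitz 0-1 sequence with period structure inside `Q` and periodic part of density at
least `1 - ε` at some level. -/
def LogSarnakToeplitz (Q : ℕ → ℕ) (ε : ℝ) : Prop :=
  ∀ z : ℕ → Bool, ZeroEntropy z → IsToeplitz Q z → LargePeriodicPart Q ε z →
    Tendsto (fun N : ℕ => (1 / (Real.log (N : ℝ) : ℂ)) *
      ∑ n ∈ Finset.Icc 1 N, (if z n = true then (1 : ℂ) else 0) *
        ((ArithmeticFunction.moebius n : ℤ) : ℂ) / (n : ℂ)) atTop (𝓝 0)

/-- The logarithmic Sarnak conjecture is equivalent to its restriction to minimal homeomorphisms of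
totally disconnected spaces, and, for every divisibility chain `Q` tending to infinity and every
`ε > 0`, to its restriction to zero entropy Toeplitz 0-1 sequences over `Q` with periodic part
`≥ 1 - ε`. -/
theorem result (Q : ℕ → ℕ) (hpos : ∀ k, 0 < Q k) (hdvd : ∀ k, Q k ∣ Q (k + 1))
    (htend : Tendsto Q atTop atTop) (ε : ℝ) (hε : 0 < ε) :
    (LogSarnak ↔ LogSarnakMinimal) ∧ (LogSarnak ↔ LogSarnakToeplitz Q ε) := by
  have h1 : LogSarnak → LogSarnakMinimal := by
    intro h X _ _ _ T hT _
    exact h X T T.continuous hT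
  have h2 : LogSarnakMinimal → LogSarnakToeplitz Q ε := by
    intro h z hz hT _
    obtain ⟨X, _, _, T, f, x, htd, hent, hmin, hf⟩ :=
      W136.toep_system z ((W136.subExp_iff z).2 hz) Q hpos hdvd hT
    have h3 := h X T hent hmin f f.continuous x
    simp only [hf] at h3
    exact h3
  have h3 : LogSarnakToeplitz Q ε → LogSarnak := by
    intro h X _ _ T _ hent f hf x
    have h4 := W136.system_of_bool W136.weight_log
      (W136.bool_of_toep W136.weight_log Q hpos hdvd htend ε hε fun z hz1 hz2 hz3 =>
        (W136.orth_log _).2 (h z ((W136.subExp_iff z).1 hz1) hz2 hz3))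
      T (by rw [hent]; exact lt_irrefl _) f hf x
    exact (W136.orth_log _).1 h4
  exact ⟨⟨h1, fun h => h3 (h2 h)⟩, ⟨fun h => h2 (h1 h), h3⟩⟩

end Pool.Agent.Results.MP_3e612f_nt.MinimalToeplitz
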