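import Mathlib
import Pool.Agent.W136.Diffeo

/-!
# The logarithmic Sarnak conjecture is equivalent to its case of compactly supported smooth diffeomorphisms of
d-space, for every dimension d at least three
-/

set_option autoImplicit false

open Filter Topology

namespace Pool.Agent.Results.MP_3e612f_nt.SmoothDiffeo

/-- `(X,T)` is logarithmically Möbius disjoint. -/
def LogMobiusDisjoint (X : Type) [TopologicalSpace X] (T : X → X) : Prop :=
  ∀ f : X → ℂ, Continuous f → ∀ x : X,
    Tendsto (fun N : ℕ => (1 / (Real.log (N : ℝ) : ℂ)) *
      ∑ n ∈ Finset.Icc 1 N, f (T^[n] x) * ((ArithmeticFunction.moebius n : ℤ) : ℂ) / (n : ℂ))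
      atTop (𝓝 0)

/-- The logarithmically averaged Sarnak conjecture (the same statement as the frozen one). -/
def LogSarnak : Prop :=
  ∀ (X : Type) [MetricSpace X] [CompactSpace X] (T : X → X), Continuous T →
    Dynamics.coverEntropy T Set.univ = 0 → LogMobiusDisjoint X T

/-- The closed cube with centre `0` and side length `2 R` in `d`-space. -/
def cube (d : ℕ) (R : ℝ) : Set (Fin d → ℝ) := {x | ∀ i, |x i| ≤ R}

/-- The logarithmic Sarnak conjecture for compactly supported smooth (infinitely often differentiable)
diffeomorphisms of `d`-space: `F` is the identity outside a cube, and the system is the restriction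
of `F` to this cube. -/
def LogSarnakDiffeo (d : ℕ) : Prop :=
  ∀ (R : ℝ) (F : (Fin d → ℝ) ≃ₜ (Fin d → ℝ)), ContDiff ℝ (⊤ : ℕ∞) F →
    ContDiff ℝ (⊤ : ℕ∞) F.symm → (∀ x, x ∉ cube d R → F x = x) →
    ∀ hF : Set.MapsTo F (cube d R) (cube d R),
      Dynamics.coverEntropy (hF.restrict F (cube d R) (cube d R)) Set.univ = 0 →
        LogMobiusDisjoint (cube d R) (hF.restrict F (cube d R) (cube d R))

lemma cube_eq (d : ℕ) (R : ℝ) (hR : 0 ≤ R) : cube d R = Metric.closedBall 0 R := by
  ext x
  rw [mem_closedBall_zero_iff, pi_norm_le_iff_of_nonneg hR]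
  rfl

/-- For every `d ≥ 3`, the logarithmic Sarnak conjecture holds for all systems of zero entropy if and only if it
holds for the compactly supported smooth diffeomorphisms of `d`-space of zero entropy. -/
theorem result (d : ℕ) (hd : 3 ≤ d) : LogSarnak ↔ LogSarnakDiffeo d := by
  constructor
  · intro h R F hF _ _ hm hent
    have hc : IsCompact (cube d R) := by
      rcases lt_or_ge R 0 with hR | hR
      · have : cube d R = ∅ := by
          rw [Set.eq_empty_iff_forall_notMem]
          intro x hx
          exact absurd ((abs_nonneg _).trans (hx ⟨0, by omega⟩)) (not_le.2 hR)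
        rw [this]
        exact isCompact_empty
      · rw [cube_eq d R hR]
        exact isCompact_closedBall _ _
    have : CompactSpace (cube d R) := isCompact_iff_compactSpace.1 hc
    exact h (cube d R) _ (F.continuous.restrict hm) hent
  · intro h X _ _ T _ hent f hf x
    obtain ⟨e, rfl⟩ : ∃ e, d = e + 3 := ⟨d - 3, by omega⟩
    have h4 := W136.system_of_bool W136.weight_log
      (W136.bool_of_toep W136.weight_log (fun k => 2 ^ k) (fun k => by positivity)
        (fun k => pow_dvd_pow 2 (Nat.le_succ k))
        (tendsto_pow_atTop_atTop_of_one_lt (by norm_num)) 1 one_pos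
        (fun z hz1 hz2 _ => by
          obtain ⟨R, F, hF, hF', hfix, hm, g, y, h1, h2⟩ := W136.diffeo_system e z hz1
            (fun k => 2 ^ k) (fun k => by positivity) (fun k => pow_dvd_pow 2 (Nat.le_succ k)) hz2
          have hR : 0 ≤ R := (norm_nonneg _).trans (mem_closedBall_zero_iff.1 y.2)
          have hcube := cube_eq (e + 3) R hR
          rw [← hcube] at hfix
          revert hm g y
          rw [← hcube]
          intro hm g y h1 h2
          have h3 := h R F hF hF' hfix hm h1 g g.continuous y
          rw [W136.orth_log]
          refine h3.congr fun N => ?_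
          congr 1
          refine Finset.sum_congr rfl fun n _ => ?_
          rw [← h2 n]))
      T (by rw [hent]; exact lt_irrefl _) f hf x
    exact (W136.orth_log _).1 h4

end Pool.Agent.Results.MP_3e612f_nt.SmoothDiffeo
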