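import Mathlib
import Pool.Agent.W136.Square

/-!
# The logarithmic Sarnak conjecture is equivalent to its case of smooth self-maps of the closed unit
square
-/

set_option autoImplicit false

open Filter Topology

namespace Pool.Agent.Results.MP_3e612f_nt.SmoothSquare

/-- `(X,T)` is logarithmically Möbius disjoint. -/
def LogMobiusDisjoint (X : Type) [TopologicalSpace X] (T : X → X) : Prop :=
  ∀ f : X → ℂ, Continuous f → ∀ x : X,
    Tendsto (fun N : ℕ => (1 / (Real.log (N : ℝ) : ℂ)) *
      ∑ n ∈ Finset.Icc 1 N, f (T^[n] x) * ((ArithmeticFunction.moebius n : ℤ) : ℂ) / (n : ℂ))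
      atTop (𝓝 0)

/-- The logarithmically averaged Sarnak conjecture (the same statement as the frozen one). -/
def LogSarnak : Prop :=
  ∀ (X : Type) [MetricSpace X] [CompactSpace X] (T : X → X), Continuous T →
    Dynamics.coverEntropy T Set.univ = 0 → LogMobiusDisjoint X T

/-- The closed unit square. -/
def square : Set (ℝ × ℝ) := Set.Icc 0 1 ×ˢ Set.Icc 0 1

/-- The logarithmically averaged Sarnak conjecture for restrictions to the closed unit square of
smooth (infinitely often differentiable) maps of the plane that map the square into itself. -/
def LogSarnakSmoothSquare : Prop :=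
  ∀ F : ℝ × ℝ → ℝ × ℝ, ContDiff ℝ (⊤ : ℕ∞) F → ∀ hF : Set.MapsTo F square square,
    Dynamics.coverEntropy (hF.restrict F square square) Set.univ = 0 →
      LogMobiusDisjoint square (hF.restrict F square square)

/-- The logarithmic Sarnak conjecture holds for all systems of zero entropy if and only if it holds
for the smooth self-maps of the closed unit square of zero entropy. -/
theorem result : LogSarnak ↔ LogSarnakSmoothSquare := by
  constructor
  · intro h F hF hm hent
    have : CompactSpace square := isCompact_iff_compactSpace.1 (isCompact_Icc.prod isCompact_Icc)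
    exact h square _ (hF.continuous.restrict hm) hent
  · intro h X _ _ T _ hent f hf x
    have h4 := W136.system_of_bool W136.weight_log (fun b hb => by
      obtain ⟨F, hF, hm, g, y, h1, h2⟩ := W136.square_system b hb
      have h3 := h F hF hm h1 g g.continuous y
      rw [W136.orth_log]
      refine h3.congr fun N => ?_
      congr 1
      refine Finset.sum_congr rfl fun n _ => ?_
      rw [← h2 n]
      rfl) T (by rw [hent]; exact lt_irrefl _) f hf x
    exact (W136.orth_log _).1 h4

end Pool.Agent.Results.MP_3e612f_nt.SmoothSquare
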